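import Pool.Agent.Lib.MP_802513_agHI.HA
import Pool.Agent.Lib.MP_021685_agTL.LD

/-! Definitions used in the statement of `MP_021685_ag.AlmostAll` (all Weil numbers in the fields `E i`). -/

set_option autoImplicit false

namespace TW

open Polynomial

/-- `a` is a Weil number for `Q` (in all embeddings of the field `K` its absolute value is `√Q`), and it is not
supersingular: no power of `a ^ 2 / Q` is `1`. -/
def IsWeil (Q : ℕ) {K : Type} [Field K] (a : K) : Prop :=
  (∀ φ : K →+* ℂ, φ a * starRingEnd ℂ (φ a) = (Q : ℂ)) ∧ ∀ n : ℕ, 0 < n → a ^ (2 * n) ≠ (Q : K) ^ n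

/-- The property of the polynomials `t i`, for all number fields `E i` generated by roots of the `frobPoly q (t i)`:

* the `E i` are CM fields of degree `2 g`;
* for all positive integers `Q`, all Weil numbers `a i` in `E i` for `Q` which are not supersingular (`i` in any set `s` of
  indices), and all integral polynomials `P` whose complex roots are the conjugates of the `a i` (the characteristic
  polynomials of the Frobenius of the abelian varieties over a field with `Q` elements which are isogenous to products of
  powers of abelian varieties `A i` with Frobenius `a i`), all Tate classes on the products of such a variety and of any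
  variety whose Frobenius eigenvalues have degree less than `2 g`, or splitting fields which contain no conjugate of the
  `a i`, come from pairings and from Tate classes of the latter (`TL.FullOver`). -/
def AllWeil (q g : ℕ) {r : ℕ} (t : Fin r → ℤ[X]) : Prop :=
  ∀ (E : Fin r → Type) [∀ i, Field (E i)] [∀ i, NumberField (E i)], (∀ i, HIA.IsFrobField q (t i) (E i)) →
    (∀ i, NumberField.IsCMField (E i) ∧ Module.finrank ℚ (E i) = 2 * g) ∧
    ∀ (Q : ℕ) (s : Finset (Fin r)) (a : ∀ i, E i), 0 < Q → (∀ i ∈ s, IsWeil Q (a i)) →
      ∀ P : ℤ[X], (∀ z : ℂ, aeval z P = 0 ↔ ∃ i ∈ s, ∃ φ : E i →+* ℂ, φ (a i) = z) → TL.FullOver Q P (2 * g)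

end TW
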