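import Pool.Agent.Lib.MP_021685_agTW.WD
import Pool.Agent.Lib.MP_021685_agTL.LF
import Pool.Agent.Lib.MP_021685_agTL.L2
import Pool.Agent.Lib.MP_021685_agTI.FM

/-! T-WEIL: the criterion for a polynomial whose roots are permuted with signs. -/

set_option autoImplicit false

namespace TW

open Polynomial TI TK TL

/-- The proof of `TL.criterionOver` for any polynomial `P` with roots in a finite set `R` of numbers which are permuted with
signs (`SP`) in all finite normal extensions which contain them. -/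
theorem full_of_sp {Q g : ℕ} (hQ : 0 < Q) (P : ℤ[X]) (R : Finset ℂ) (hg : R.Nonempty → 0 < g)
    (hP : ∀ z : ℂ, aeval z P = 0 ↔ z ∈ R) (halg : ∀ ρ ∈ R, IsAlgebraic ℚ ρ)
    (hne : ∀ z ∈ R, z ≠ 0 ∧ z ^ 2 ≠ (Q : ℂ))
    (hsp : ∀ (K : IntermediateField ℚ ℂ) [FiniteDimensional ℚ K] [Normal ℚ K], (∀ z ∈ R, z ∈ K) →
      ∃ (I : Type) (_ : Fintype I) (S : SP Q g K I), (∀ y : I, ((S.z y : K) : ℂ) ∈ R) ∧
        ∀ w : K, (w : ℂ) ∈ R → ∃ y : I, w = S.z y ∨ w = (Q : K) / S.z y) :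
    TL.FullOver Q P (2 * g) := by
  classical
  apply TL.full_of_matchOver Q hQ
  intro k d b z y hd hz hy hrel
  have hzR : ∀ a, z a ∈ R := fun a => (hP _).1 (hz a)
  have hQ' : (Q : ℂ) ≠ 0 := Nat.cast_ne_zero.2 hQ.ne'
  have hz0 : ∀ a, z a ≠ 0 := fun a => (hne _ (hzR a)).1
  have hy0 : y ≠ 0 := by
    rintro rfl
    rw [zero_pow two_ne_zero, mul_zero] at hrel
    exact pow_ne_zero _ hQ' hrel.symm
  apply matching z (Q : ℂ) hz0
  · exact fun a => (hne _ (hzR a)).2
  intro a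
  have hg0 : 0 < g := hg ⟨z a, hzR a⟩
  obtain ⟨N, hN, hmem⟩ := hy
  obtain ⟨L, hL, hLp⟩ := Submonoid.exists_list_of_mem_closure hmem
  obtain ⟨K, hfd, hnor, hK⟩ := exists_field (L.toFinset ∪ R) (by
    intro ρ hρ
    rcases Finset.mem_union.1 hρ with hρ | hρ
    · obtain ⟨f, hf0, hf, -⟩ := hL ρ (List.mem_toFinset.1 hρ)
      exact ⟨f, hf0, hf⟩
    · exact halg ρ hρ)
  have hKR : ∀ z ∈ R, z ∈ K := fun z hz => hK z (Finset.mem_union_right _ hz)
  obtain ⟨I, hI, S, hSR, hS⟩ := hsp K hKR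
  have hSP : ∀ v : I, aeval ((S.z v : K) : ℂ) P = 0 := fun v => (hP _).2 (hSR v)
  let w : Fin k → K := fun a => ⟨z a, hKR _ (hzR a)⟩
  have hwz : ∀ a, ((w a : K) : ℂ) = z a := fun a => rfl
  have hw : ∀ a, ∃ v, w a = S.z v ∨ w a = (Q : K) / S.z v := fun a => hS (w a) (hzR a)
  have hlist : ∀ L : List ℂ, (∀ ρ ∈ L, ρ ∈ K ∧ Foreign P (2 * g) ρ) →
      ∃ c : K, c ∈ Submonoid.closure {u : K | u ≠ 0 → ∀ x, S.e x u ^ 2 = 1} ∧ (c : ℂ) = L.prod := by
    intro L
    induction L with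
    | nil => exact fun _ => ⟨1, Submonoid.one_mem _, by simp⟩
    | cons ρ L ih =>
      intro hρ
      obtain ⟨c, hc, hc'⟩ := ih fun σ hσ => hρ σ (List.mem_cons_of_mem _ hσ)
      obtain ⟨h3, f, hf0, hf, hfd'⟩ := hρ ρ List.mem_cons_self
      refine ⟨⟨ρ, h3⟩ * c, Submonoid.mul_mem _ (Submonoid.subset_closure ?_) hc, ?_⟩
      · intro hu0
        refine S.foreign (algebraMap K ℂ) hQ (⟨ρ, h3⟩ : K) hu0 f hf0 ?_ ?_
        · apply (algebraMap K ℂ).injective
          rw [map_zero, ← aeval_algebraMap_apply]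
          exact hf
        · exact hfd'.imp_right fun h4 v => h4 _ (hSP v)
      · rw [List.prod_cons, ← hc']
        rfl
  obtain ⟨c, hc, hc'⟩ := hlist L fun ρ hρ => ⟨hK ρ (Finset.mem_union_left _ (List.mem_toFinset.2 hρ)), hL ρ hρ⟩
  rw [hLp] at hc'
  have hc1 : c ^ 2 ∈ Submonoid.closure {u : K | u ≠ 0 → ∀ x, S.e x u ^ 2 = 1} := Submonoid.pow_mem _ hc 2
  have hc0 : c ^ 2 ≠ 0 := by
    apply pow_ne_zero
    intro h3
    rw [h3] at hc'
    exact pow_ne_zero N hy0 hc'.symm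
  have hc2 : (Q : K) ^ (d * (k + b) * N) ∈ Submonoid.closure {u : K | u ≠ 0 → ∀ x, S.e x u ^ 2 = 1} := by
    refine Submonoid.pow_mem _ (Submonoid.subset_closure ?_) _
    intro _ x
    rw [S.e_q hQ x, one_pow]
  have hrel' : (∏ a, w a) ^ (2 * d * N) * c ^ 2 = (Q : K) ^ (d * (k + b) * N) := by
    apply (algebraMap K ℂ).injective
    have h3 : algebraMap K ℂ (∏ a, w a) = ∏ a, z a := by
      rw [map_prod]
      rfl
    have h4 : algebraMap K ℂ c = y ^ N := hc'
    rw [map_mul, map_pow, map_pow, map_pow, h3, h4, map_natCast]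
    rw [pow_mul (∏ a, z a) (2 * d) N, pow_mul (Q : ℂ) (d * (k + b)) N, ← hrel, mul_pow]
    congr 1
    rw [← pow_mul, ← pow_mul, mul_comm]
  have hbal := fun v => S.balance' hQ w hw (2 * d * N) (by positivity) (c ^ 2) _ hc1 hc0 hc2 hrel' v
  obtain ⟨v, hv | hv⟩ := hw a
  · refine Eq.trans ?_ (Eq.trans (hbal v) ?_)
    · refine congrArg Finset.card (Finset.ext fun b => ?_)
      simp only [Finset.mem_filter, Finset.mem_univ, true_and]
      rw [← hv]
      exact ⟨fun h3 => Subtype.ext h3, fun h3 => congrArg Subtype.val h3⟩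
    · refine congrArg Finset.card (Finset.ext fun b => ?_)
      simp only [Finset.mem_filter, Finset.mem_univ, true_and]
      rw [← hv]
      have h3 : (((Q : K) / w a : K) : ℂ) = (Q : ℂ) / z a := by
        push_cast
        rfl
      rw [← h3]
      exact ⟨fun h4 => congrArg Subtype.val h4, fun h4 => Subtype.ext h4⟩
  · have hv' : S.z v = (Q : K) / w a := by
      have hq'' : (Q : K) ≠ 0 := Nat.cast_ne_zero.2 hQ.ne'
      rw [hv, div_div_cancel₀ hq'']
    refine Eq.trans ?_ (Eq.trans (hbal v).symm ?_)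
    · refine congrArg Finset.card (Finset.ext fun b => ?_)
      simp only [Finset.mem_filter, Finset.mem_univ, true_and]
      rw [← hv]
      exact ⟨fun h3 => Subtype.ext h3, fun h3 => congrArg Subtype.val h3⟩
    · refine congrArg Finset.card (Finset.ext fun b => ?_)
      simp only [Finset.mem_filter, Finset.mem_univ, true_and]
      rw [hv']
      have h3 : (((Q : K) / w a : K) : ℂ) = (Q : ℂ) / z a := by
        push_cast
        rfl
      rw [← h3]
      exact ⟨fun h4 => congrArg Subtype.val h4, fun h4 => Subtype.ext h4⟩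

end TW
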