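import Pool.Agent.Lib.MP_021685_agTW.W1
import Pool.Agent.Lib.MP_021685_agTW.W2

/-! T-WEIL: the main theorem for fields with flips. -/

set_option autoImplicit false

namespace TW

open Polynomial Module Pool.Agent.Lib.MP_802513_ag Pool.Agent.Lib.MP_802513_ag.SD TK

theorem allWeil_of_crit {q g r : ℕ} (hq : 0 < q) {t : Fin r → ℤ[X]} (hC : HI.Crit q g r t) : AllWeil q g t := by
  classical
  intro E _ _ hE
  have hcm : ∀ i, NumberField.IsCMField (E i) ∧ finrank ℚ (E i) = 2 * g := by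
    intro i
    obtain ⟨l, hl⟩ := hC.loc i
    exact HI.frobField_cm hq t hC.weil hC.irr i l hl (hE i)
  have hF : HI.HasFlips E := HI.hasFlips hq hC E hE
  have : ∀ i, NumberField.IsCMField (E i) := fun i => (hcm i).1
  refine ⟨hcm, fun Q s a hQ ha P hP => ?_⟩
  have hQC : (Q : ℂ) ≠ 0 := Nat.cast_ne_zero.2 hQ.ne'
  let R : Finset ℂ := s.biUnion fun i : Fin r => (Finset.univ : Finset (E i →+* ℂ)).image fun φ => φ (a i)
  have hR : ∀ z : ℂ, z ∈ R ↔ ∃ i ∈ s, ∃ φ : E i →+* ℂ, φ (a i) = z := by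
    intro z
    simp only [R, Finset.mem_biUnion, Finset.mem_univ, true_and, Finset.mem_image]
  refine full_of_sp hQ P R ?_ (fun z => (hP z).trans (hR z).symm) ?_ ?_ ?_
  · rintro ⟨z, hz⟩
    obtain ⟨i, -, φ, -⟩ := (hR z).1 hz
    have h1 := (hcm i).2
    have h2 : 0 < finrank ℚ (E i) := Module.finrank_pos
    omega
  · intro z hz
    obtain ⟨i, -, φ, rfl⟩ := (hR z).1 hz
    have h1 : IsAlgebraic ℚ (a i) := Algebra.IsAlgebraic.isAlgebraic (a i)
    exact h1.algHom (φ.toRatAlgHom)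
  · intro z hz
    obtain ⟨i, hi, φ, rfl⟩ := (hR z).1 hz
    refine ⟨fun h0 => ?_, fun h0 => ?_⟩
    · have h1 := (ha i hi).1 φ
      rw [h0, zero_mul] at h1
      exact hQC h1.symm
    · apply (ha i hi).2 1 one_pos
      apply φ.injective
      rw [map_pow, map_pow, map_natCast, mul_one, pow_one]
      exact h0
  · intro K _ _ hK
    obtain ⟨I, hI, S, hSR, hS⟩ := exists_sp hQ hF (fun i => (hcm i).2) s ha K
      fun i hi φ => hK _ ((hR _).2 ⟨i, hi, φ, rfl⟩)
    refine ⟨I, hI, S, fun y => ?_, fun w hw => ?_⟩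
    · obtain ⟨i, hi, φ, h⟩ := hSR y
      exact (hR _).2 ⟨i, hi, φ, h.symm⟩
    · obtain ⟨i, hi, φ, h⟩ := (hR _).1 hw
      exact hS i hi φ w h.symm

end TW
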